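import Pool.Agent.Y33.GP.Iso

/-! # From locally recurrent geodesics to locally recurrent quasi-geodesics -/

set_option autoImplicit false

namespace Pool.Agent.Y33.LG

open Pool.Agent.H659R3.MorseLim Pool.Agent.Y33.Free Pool.Agent.Y33.GP

variable {G : Type} [Group G] {A : FinGen G}

/-- The nearest point trick at both ends of a geodesic. -/
theorem double_trick {l : ℕ} {g : ℕ → G} (hg : Geo A l g) {y₁ y₂ : G} {δ : ℕ}
    (h1 : A.dist (g 0) y₁ ≤ δ) (h2 : A.dist (g l) y₂ ≤ δ)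
    (n1 : ∀ i ≤ l, A.dist (g 0) y₁ ≤ A.dist (g i) y₁)
    (n2 : ∀ i ≤ l, A.dist (g l) y₂ ≤ A.dist (g i) y₂) (hl : 3 * δ ≤ l) :
    ∃ (N : ℕ) (π : ℕ → G), QG A 9 N π ∧ π 0 = y₁ ∧ π N = y₂ ∧ (∀ i ≤ l, ∃ t ≤ N, π t = g i) ∧
      ∀ t ≤ N, (∃ i ≤ l, π t = g i) ∨ (y₁ ≠ g 0 ∧ A.dist (π t) y₁ ≤ δ) ∨
        (y₂ ≠ g l ∧ A.dist (π t) y₂ ≤ δ) := by
  obtain ⟨c₂, a1, a2, a3⟩ := exists_geo A (g l) y₂
  obtain ⟨c₁, b1, b2, b3⟩ := exists_geo A (g 0) y₁
  set e₂ := A.dist (g l) y₂ with he₂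
  set e₁ := A.dist (g 0) y₁ with he₁
  have q1 := QG.trick (m := 1) le_rfl (hg.qg le_rfl) le_rfl n2 a1 a2 a3
  set Q : ℕ → G := fun i => app g l c₂ (l + e₂ - i) with hQ
  have q2 : QG A 3 (l + e₂) Q := q1.rev
  have hQl : Q (l + e₂) = g 0 := by
    simp only [hQ, Nat.sub_self]
    rw [app_le (Nat.zero_le _)]
  have hn : ∀ i ≤ l + e₂, A.dist (Q (l + e₂)) y₁ ≤ A.dist (Q i) y₁ := by
    intro i hi
    rw [hQl]
    simp only [hQ]
    rcases le_or_gt (l + e₂ - i) l with h | h
    · rw [app_le h]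
      exact n1 _ h
    · obtain ⟨j, hj⟩ := Nat.exists_eq_add_of_le h.le
      rw [hj, app_add a2]
      have t1 := A.dist_triangle (g 0) (g l) y₁
      have t2 := A.dist_triangle (g 0) y₁ (g l)
      have t3 := A.dist_triangle (g l) (c₂ j) y₁
      have t4 := a1 0 j (by omega)
      rw [zero_add, a2] at t4
      have t5 := hg 0 l (by omega)
      rw [zero_add] at t5
      rw [A.dist_comm y₁ (g l)] at t2
      omega
  have q3 := QG.trick (m := 3) (by omega) q2 le_rfl hn b1 (by rw [b2, hQl]) b3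
  have e0 : c₁ 0 = Q (l + e₂) := by rw [b2, hQl]
  refine ⟨l + e₂ + e₁, _, q3.rev, ?_, ?_, ?_, ?_⟩
  · simp only [Nat.sub_zero]
    rw [app_add e0, b3]
  · simp only [Nat.sub_self]
    rw [app_le (Nat.zero_le _)]
    simp only [hQ, Nat.sub_zero]
    rw [app_add a2, a3]
  · intro i hi
    refine ⟨e₁ + i, by omega, ?_⟩
    have f1 : l + e₂ + e₁ - (e₁ + i) = l + e₂ - i := by omega
    simp only [f1]
    rw [app_le (by omega)]
    simp only [hQ]
    have f2 : l + e₂ - (l + e₂ - i) = i := by omega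
    rw [f2, app_le hi]
  · intro t ht
    rcases le_or_gt (l + e₂ + e₁ - t) (l + e₂) with h | h
    · rw [app_le h]
      simp only [hQ]
      rcases le_or_gt (l + e₂ - (l + e₂ + e₁ - t)) l with h3 | h3
      · left
        exact ⟨_, h3, by rw [app_le h3]⟩
      · right; right
        obtain ⟨j, hj⟩ := Nat.exists_eq_add_of_le h3.le
        rw [hj, app_add a2]
        have t4 := a1 j (e₂ - j) (by omega)
        have f3 : j + (e₂ - j) = e₂ := by omega
        rw [f3, a3] at t4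
        refine ⟨?_, by omega⟩
        intro h4
        rw [h4] at he₂
        simp at he₂
        omega
    · right; left
      obtain ⟨j, hj⟩ := Nat.exists_eq_add_of_le h.le
      rw [hj, app_add e0]
      have t4 := b1 j (e₁ - j) (by omega)
      have f3 : j + (e₁ - j) = e₁ := by omega
      rw [f3, b3] at t4
      refine ⟨?_, by omega⟩
      intro h4
      rw [h4] at he₁
      simp at he₁
      omega

/-- Windows: local quasi-geodesic inequalities. -/
def LocQ (A : FinGen G) (m₀ W n : ℕ) (x : ℕ → G) : Prop :=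
  ∀ a k, a + k ≤ n → k ≤ W → A.dist (x a) (x (a + k)) ≤ m₀ * k + m₀ ∧
    k ≤ m₀ * A.dist (x a) (x (a + k)) + m₀

/-- The `U`-gauge of windows. -/
def gV (m₀ : ℕ) (M : ℕ → ℕ) (m : ℕ) : ℕ :=
  (cc m (M m) * (cc m (M m) * (2 * m₀) + cc m (M m)) + cc m (M m)) + M m

theorem window_U {m₀ W n : ℕ} {M : ℕ → ℕ} {x : ℕ → G} (hQ : LocQ A m₀ W n x) (hW : 1 ≤ W)
    (hM : LocR A M W n x) {a b : ℕ} (hab : a ≤ b) (hb : b ≤ n) (hw : b ≤ a + W) :
    U A (gV m₀ M) (x a) (x b) := by
  rcases Nat.eq_or_lt_of_le hab with rfl | hlt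
  · refine (U.of_dist (e := 0) (by simp)).mono fun m => ?_
    unfold gV
    have h1 : m ≤ cc m (M m) := le_cc _ _
    have h2 : m * (m * 0 + m) ≤ cc m (M m) * (cc m (M m) * (2 * m₀) + cc m (M m)) := by
      gcongr
      omega
    omega
  · obtain ⟨k, rfl⟩ := Nat.exists_eq_add_of_le hab
    have := U.chain (A := A) (M := fun m => m * (m * (2 * m₀) + m) + m) (E := M) (n := k)
      (by omega) (v := fun i => x (a + i)) ?_ ?_
    · exact this
    · intro s hs
      refine U.of_dist (e := 2 * m₀) ?_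
      have := (hQ (a + s) 1 (by omega) hW).1
      rw [← add_assoc]
      omega
    · intro m hm s hs
      exact hM a k hb (by omega) m hm 0 s k (Nat.zero_le _) hs le_rfl

section Step

variable {m₀ : ℕ} {M : ℕ → ℕ}

/-- Closeness of windows. -/
def d1 (m₀ : ℕ) (M : ℕ → ℕ) : ℕ := gV m₀ M (m₀ + 9)

/-- The gauge of geodesic segments in windows. -/
def M2 (m₀ : ℕ) (M : ℕ → ℕ) (m : ℕ) : ℕ := gV m₀ M (cc m (d1 m₀ M)) + d1 m₀ M

/-- The final gauge. -/
def F' (M F₀ : ℕ → ℕ) (m : ℕ) : ℕ := M m + F₀ m + M 9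

/-- The crude closeness. -/
def dt (m₀ : ℕ) (M F₀ : ℕ → ℕ) : ℕ := F' M F₀ (cc 1 (2 * m₀)) + 2 * m₀ + F' M F₀ 1

/-- Large distances. -/
def Xb (m₀ : ℕ) (M F₀ : ℕ → ℕ) (K₀ : ℕ) : ℕ := K₀ + 20 * dt m₀ M F₀ + M 9

/-- Half windows. -/
def wW (m₀ : ℕ) (M F₀ : ℕ → ℕ) (K₀ : ℕ) : ℕ := m₀ * (Xb m₀ M F₀ K₀ + 2)

theorem loc_step {F₀ : ℕ → ℕ} {K₀ : ℕ} (hm₀ : 1 ≤ m₀)
    (hP : ∀ (l : ℕ) (g : ℕ → G), Geo A l g → LocR A (M2 m₀ M) K₀ l g → RecOn A F₀ l g)
    {W n : ℕ} (hW : 2 * wW m₀ M F₀ K₀ + 2 ≤ W) {x : ℕ → G} (hQ : LocQ A m₀ W n x)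
    (hM : LocR A M W n x) {a b : ℕ} (hab : a + W < b) (hb : b ≤ n)
    (ih : ∀ j, a ≤ j → j < b → ∀ i, a ≤ i → i ≤ j → ∀ m, 1 ≤ m →
      R A m (F' M F₀ m) (x a) (x i) (x j)) {m : ℕ} (hm : 1 ≤ m) {j : ℕ} (haj : a ≤ j)
    (hjb : j ≤ b) : R A m (F' M F₀ m) (x a) (x j) (x b) := by
  classical
  obtain ⟨g, g1, g2, g3⟩ := exists_geo A (x a) (x b)
  set l := A.dist (x a) (x b) with hl
  set w := wW m₀ M F₀ K₀ with hw
  set D := dt m₀ M F₀ with hD
  set X := Xb m₀ M F₀ K₀ with hX
  have hX' : X = K₀ + 20 * D + M 9 := rfl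
  have hnear : ∀ u, ∃ t ≤ l, ∀ i ≤ l, A.dist (g t) (x u) ≤ A.dist (g i) (x u) :=
    fun u => exists_nearest A l g (x u)
  choose t ht htm using hnear
  have ta : t a = 0 := by
    have h1 := htm a 0 (Nat.zero_le _)
    rw [g2, A.dist_self] at h1
    have h2 := g1 0 (t a) (by have := ht a; omega)
    rw [zero_add, g2, A.dist_comm] at h2
    omega
  have tb : t b = l := by
    have h1 := htm b l le_rfl
    rw [g3, A.dist_self] at h1
    have h2 := g1 (t b) (l - t b) (by have := ht b; omega)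
    have e : t b + (l - t b) = l := by have := ht b; omega
    rw [e, g3] at h2
    have := ht b
    omega
  -- crude closeness
  have near : ∀ i, a ≤ i → i ≤ b → A.dist (g (t i)) (x i) ≤ D := by
    intro i h1 h2
    rcases Nat.eq_or_lt_of_le h2 with rfl | h3
    · have := htm i l le_rfl
      rw [g3, A.dist_self] at this
      omega
    · have h4 := ih (b - 1) (by omega) (by omega) i h1 (by omega) (cc 1 (2 * m₀)) (le_cc _ _)
      obtain ⟨s, hs, h5⟩ := h4.change (m := 1) (e := 2 * m₀) le_rfl (g1.qg le_rfl) (by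
        rw [g2]; simp) (by
        rw [g3, A.dist_comm]
        have := (hQ (b - 1) 1 (by omega) (by omega)).1
        have e : b - 1 + 1 = b := by omega
        rw [e] at this
        omega)
      refine (htm i s hs).trans (h5.trans ?_)
      rw [hD]; unfold dt
      omega
  have tdist : ∀ i, t i = A.dist (x a) (g (t i)) := by
    intro i
    have := g1 0 (t i) (by have := ht i; omega)
    rw [zero_add, g2] at this
    exact this.symm
  -- order
  have order : ∀ i j, a ≤ i → i ≤ j → j ≤ b → t i + A.dist (x i) (x j) ≤ t j + 4 * D := by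
    intro i j h1 h2 h3
    have h4 : A.dist (x a) (x i) + A.dist (x i) (x j) ≤ A.dist (x a) (x j) + 2 * D := by
      rcases Nat.eq_or_lt_of_le h3 with rfl | h5
      · have c1 := near i h1 h2
        have c2 := A.dist_triangle (x a) (g (t i)) (x i)
        have c3 := A.dist_triangle (x i) (g (t i)) (x j)
        rw [A.dist_comm (x i) (g (t i))] at c3
        have c4 := g1 (t i) (l - t i) (by have := ht i; omega)
        have e : t i + (l - t i) = l := by have := ht i; omega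
        rw [e, g3] at c4
        have c5 := tdist i
        have c6 := ht i
        omega
      · obtain ⟨p, p1, p2, p3⟩ := exists_geo A (x a) (x j)
        obtain ⟨s, hs, h6⟩ := ih j (by omega) h5 i h1 h2 1 le_rfl _ p (p1.qg le_rfl) p2 p3
        have c2 := A.dist_triangle (x a) (p s) (x i)
        have c3 := A.dist_triangle (x i) (p s) (x j)
        rw [A.dist_comm (x i) (p s)] at c3
        have c4 := p1 s (A.dist (x a) (x j) - s) (by omega)
        have e : s + (A.dist (x a) (x j) - s) = A.dist (x a) (x j) := by omega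
        rw [e, p3] at c4
        have c5 := p1 0 s (by omega)
        rw [zero_add, p2] at c5
        have c6 : F' M F₀ 1 ≤ D := by rw [hD]; unfold dt; omega
        omega
    have c1 := near i h1 (h2.trans h3)
    have c2 := near j (h1.trans h2) h3
    have c3 := A.dist_triangle (x a) (x i) (g (t i))
    rw [A.dist_comm (x i) (g (t i))] at c3
    have c4 := A.dist_triangle (x a) (g (t j)) (x j)
    have c5 := tdist i
    have c6 := tdist j
    omega
  -- large distances
  have big : ∀ i j, a ≤ i → i + w ≤ j → j ≤ i + W → j ≤ b → X + 1 ≤ A.dist (x i) (x j) := by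
    intro i j h1 h2 h3 h4
    obtain ⟨k, rfl⟩ := Nat.exists_eq_add_of_le (show i ≤ j by omega)
    have h5 := (hQ i k (by omega) (by omega)).2
    by_contra hcon
    push Not at hcon
    have h6 : m₀ * A.dist (x i) (x (i + k)) ≤ m₀ * X := Nat.mul_le_mul_left m₀ (by omega)
    have h7 : w = m₀ * X + 2 * m₀ := by rw [hw]; unfold wW; rw [← hX]; ring
    omega
  -- windows
  have win : ∀ j₁ j₂, a ≤ j₁ → j₁ + w ≤ j₂ → j₂ ≤ j₁ + W → j₂ ≤ b → t j₁ ≤ t j₂ ∧
      ∃ (N : ℕ) (π : ℕ → G), QG A 9 N π ∧ π 0 = x j₁ ∧ π N = x j₂ ∧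
        (∀ s, t j₁ ≤ s → s ≤ t j₂ → ∃ r ≤ N, π r = g s) ∧
        ∀ r ≤ N, (∃ s ≤ l, π r = g s) ∨ (j₁ ≠ a ∧ A.dist (π r) (x j₁) ≤ D) ∨
          (j₂ ≠ b ∧ A.dist (π r) (x j₂) ≤ D) := by
    intro j₁ j₂ h1 h2 h3 h4
    have c1 := order j₁ j₂ h1 (by omega) h4
    have c2 := big j₁ j₂ h1 h2 h3 h4
    have c3 : t j₁ + 3 * D ≤ t j₂ := by omega
    have c4 := ht j₂
    have e : t j₁ + (t j₂ - t j₁) = t j₂ := by omega
    obtain ⟨N, π, d1, d2, d3, d4, d5⟩ := double_trick (g1.sub (a := t j₁) (l' := t j₂ - t j₁)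
      (by omega)) (y₁ := x j₁) (y₂ := x j₂) (δ := D) (by
        simpa using near j₁ h1 (by omega)) (by
        simp only [e]
        exact near j₂ (by omega) h4) (by
        intro i hi
        simp only [add_zero]
        exact htm j₁ _ (by omega)) (by
        intro i hi
        simp only [e]
        exact htm j₂ _ (by omega)) (by omega)
    refine ⟨by omega, N, π, d1, d2, d3, ?_, ?_⟩
    · intro s h5 h6
      obtain ⟨r, hr, hr'⟩ := d4 (s - t j₁) (by omega)
      have e' : t j₁ + (s - t j₁) = s := by omega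
      simp only [e'] at hr'
      exact ⟨r, hr, hr'⟩
    · intro r hr
      rcases d5 r hr with ⟨i, hi, h5⟩ | ⟨h5, h6⟩ | ⟨h5, h6⟩
      · exact Or.inl ⟨_, by omega, h5⟩
      · right; left
        refine ⟨?_, h6⟩
        rintro rfl
        simp only [add_zero, ta] at h5
        exact h5 g2.symm
      · right; right
        refine ⟨?_, h6⟩
        rintro rfl
        simp only [e] at h5
        exact h5 (by rw [tb, g3])
  -- points of `g` in windows are close to the sequence
  have cl : ∀ j₁ j₂, a ≤ j₁ → j₁ + w ≤ j₂ → j₂ ≤ j₁ + W → j₂ ≤ b → ∀ s, t j₁ ≤ s → s ≤ t j₂ →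
      ∃ i, j₁ ≤ i ∧ i ≤ j₂ ∧ A.dist (g s) (x i) ≤ d1 m₀ M := by
    intro j₁ j₂ h1 h2 h3 h4 s h5 h6
    obtain ⟨-, N, π, e1, e2, e3, e4, -⟩ := win j₁ j₂ h1 h2 h3 h4
    obtain ⟨r, hr, hr'⟩ := e4 s h5 h6
    have hU := window_U hQ (by omega) hM (a := j₁) (b := j₂) (by omega) (by omega) h3
    obtain ⟨k, rfl⟩ := Nat.exists_eq_add_of_le (show j₁ ≤ j₂ by omega)
    have hxq : QG A (m₀ + 9) k (fun i => x (j₁ + i)) := by
      intro c d hcd
      have := hQ (j₁ + c) d (by omega) (by omega)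
      simp only
      rw [← add_assoc]
      obtain ⟨f1, f2⟩ := this
      constructor
      · calc _ ≤ m₀ * d + m₀ := f1
          _ ≤ (m₀ + 9) * d + (m₀ + 9) := by gcongr <;> omega
      · calc _ ≤ m₀ * A.dist (x (j₁ + c)) (x (j₁ + c + d)) + m₀ := f2
          _ ≤ _ := by gcongr <;> omega
    obtain ⟨i, hi, hi'⟩ := hU (m₀ + 9) (by omega) N π k _ (e1.mono (by omega)) hxq e2 e3
      (by simp) rfl r hr
    rw [hr'] at hi'
    exact ⟨j₁ + i, by omega, by omega, hi'⟩
  -- local recurrence of `g`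
  have hloc : LocR A (M2 m₀ M) K₀ l g := by
    intro s k hsk hk m hm a' b' c' h1 h2 h3
    obtain ⟨i, hi1, hi2, hi3⟩ := exists_step (b - a) (fun i => t (a + i)) s (by simp [ta]) (by
      have e : a + (b - a) = b := by omega
      simp only [e, tb]
      omega) (by omega)
    obtain ⟨j₁, hj₁, k1⟩ : ∃ j₁, a ≤ j₁ ∧ ((j₁ = a) ∨ (j₁ + w = a + i)) ∧ j₁ ≤ a + i ∧
        a + i ≤ j₁ + w := by
      rcases le_or_gt w i with h | h
      · exact ⟨a + (i - w), by omega, by omega, by omega, by omega⟩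
      · exact ⟨a, le_rfl, Or.inl rfl, by omega, by omega⟩
    obtain ⟨j₂, hj₂, k2⟩ : ∃ j₂, j₂ ≤ b ∧ ((j₂ = b) ∨ (j₂ = a + (i + 1) + w)) ∧
        a + (i + 1) ≤ j₂ ∧ j₂ ≤ a + (i + 1) + w := by
      rcases le_or_gt (a + (i + 1) + w) b with h | h
      · exact ⟨_, h, Or.inr rfl, by omega, by omega⟩
      · exact ⟨b, le_rfl, Or.inl rfl, by omega, by omega⟩
    obtain ⟨k1, k3, k5⟩ := k1
    obtain ⟨k2, k4, k6⟩ := k2
    have hgap : j₁ + w ≤ j₂ := by omega
    have hgap2 : j₂ ≤ j₁ + W := by omega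
    have q1 : t j₁ ≤ s := by
      rcases k1 with h | h
      · rw [h, ta]; omega
      · have c1 := order j₁ (a + i) hj₁ (by omega) (by omega)
        have c2 := big j₁ (a + i) hj₁ (by omega) (by omega) (by omega)
        omega
    have q2 : s + k ≤ t j₂ := by
      rcases k2 with h | h
      · rw [h, tb]; exact hsk
      · have c1 := order (a + (i + 1)) j₂ (by omega) (by omega) (by omega)
        have c2 := big (a + (i + 1)) j₂ (by omega) (by omega) (by omega) (by omega)
        omega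
    obtain ⟨i1, u1, u2, u3⟩ := cl j₁ j₂ hj₁ hgap hgap2 hj₂ (s + a') (by omega) (by omega)
    obtain ⟨i3, v1, v2, v3⟩ := cl j₁ j₂ hj₁ hgap hgap2 hj₂ (s + c') (by omega) (by omega)
    have hU : U A (gV m₀ M) (x i1) (x i3) := by
      rcases le_total i1 i3 with h | h
      · exact window_U hQ (by omega) hM h (by omega) (by omega)
      · exact (window_U hQ (by omega) hM h (by omega) (by omega)).symm
    intro L q hq h0 hL
    obtain ⟨r, -, hr, hr'⟩ := hU.change (m := m) (e := d1 m₀ M) hm (g1.qg hm) hq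
      (s := s + a') (t := s + c') (by omega) (by omega) (Nat.zero_le _) (le_refl L) u3 v3
      (by rw [h0]; exact u3) (by rw [hL]; exact v3) (i := s + b') (by omega) (by omega)
    refine ⟨r, by simpa using hr, ?_⟩
    rw [A.dist_comm]
    exact hr'
  have hrec := hP l g g1 hloc
  -- the point of `g` close to `x j`
  obtain ⟨s, hs, hsj⟩ : ∃ s ≤ l, A.dist (g s) (x j) ≤ M 9 := by
    obtain ⟨j₁, hj₁, k1⟩ : ∃ j₁, a ≤ j₁ ∧ ((j₁ = a) ∨ (j₁ + w = j)) ∧ j₁ ≤ j ∧
        j ≤ j₁ + w := by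
      rcases le_or_gt (a + w) j with h | h
      · exact ⟨j - w, by omega, by omega, by omega, by omega⟩
      · exact ⟨a, le_rfl, Or.inl rfl, by omega, by omega⟩
    obtain ⟨j₂, hj₂, k2⟩ : ∃ j₂, j₂ ≤ b ∧ ((j₂ = b) ∨ (j₂ = j + w)) ∧
        j ≤ j₂ ∧ j₂ ≤ j + w := by
      rcases le_or_gt (j + w) b with h | h
      · exact ⟨_, h, Or.inr rfl, by omega, by omega⟩
      · exact ⟨b, le_rfl, Or.inl rfl, by omega, by omega⟩
    obtain ⟨k1, k3, k5⟩ := k1
    obtain ⟨k2, k4, k6⟩ := k2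
    have hgap : j₁ + w ≤ j₂ := by omega
    have hgap2 : j₂ ≤ j₁ + W := by omega
    obtain ⟨-, N, π, e1, e2, e3, -, e5⟩ := win j₁ j₂ hj₁ hgap hgap2 hj₂
    obtain ⟨r, hr, hr'⟩ := hM.R (a := j₁) (b := j) (c := j₂) k3 k4 (by omega) hgap2 (m := 9)
      (by omega) N π e1 e2 e3
    rcases e5 r hr with ⟨s, hs, h5⟩ | ⟨h5, h6⟩ | ⟨h5, h6⟩
    · exact ⟨s, hs, by rw [← h5]; exact hr'⟩
    · exfalso
      have c2 := big j₁ j hj₁ (by omega) (by omega) (by omega)
      have c3 := A.dist_triangle (x j₁) (π r) (x j)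
      rw [A.dist_comm (x j₁) (π r)] at c3
      omega
    · exfalso
      have c2 := big j j₂ haj (by omega) (by omega) (by omega)
      have c3 := A.dist_triangle (x j) (π r) (x j₂)
      rw [A.dist_comm (x j) (π r)] at c3
      omega
  have := (hrec m hm 0 s l (Nat.zero_le _) hs le_rfl).mid hsj
  rw [g2, g3] at this
  refine this.mono le_rfl ?_
  unfold F'
  omega

end Step

/-- Locally recurrent local quasi-geodesics are recurrent quasi-geodesics. -/
theorem local_global (hP : LocRec A) {m₀ : ℕ} (hm₀ : 1 ≤ m₀) (M : ℕ → ℕ) :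
    ∃ (W C : ℕ) (F : ℕ → ℕ), 1 ≤ W ∧ 1 ≤ C ∧ ∀ (n : ℕ) (x : ℕ → G), LocQ A m₀ W n x → LocR A M W n x →
      QG A C n x ∧ RecOn A F n x := by
  obtain ⟨K₀, F₀, hP'⟩ := hP (M2 m₀ M)
  set w := wW m₀ M F₀ K₀ with hw
  refine ⟨2 * w + 2, w + 2 * m₀, F' M F₀, by omega, by omega, ?_⟩
  intro n x hQ hM
  have key : ∀ N a b, a ≤ b → b ≤ n → b ≤ a + N → ∀ j, a ≤ j → j ≤ b → ∀ m, 1 ≤ m →
      R A m (F' M F₀ m) (x a) (x j) (x b) := by
    intro N
    induction N with
    | zero =>
      intro a b h1 _ h2 j h3 h4 m _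
      have : j = a := by omega
      rw [this]
      exact R.left _ _ _ _ _
    | succ N ih =>
      intro a b h1 hb h2 j h3 h4 m hm
      rcases le_or_gt b (a + (2 * w + 2)) with h5 | h5
      · refine (hM.R h3 h4 hb h5 hm).mono le_rfl ?_
        unfold F'
        omega
      · exact loc_step hm₀ hP' le_rfl hQ hM h5 hb (fun j' h6 h7 i h8 h9 m hm =>
          ih a j' h6 (by omega) (by omega) i h8 h9 m hm) hm h3 h4
  have hrec : RecOn A (F' M F₀) n x := fun m hm a b c h1 h2 h3 =>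
    key (c - a) a c (by omega) h3 (by omega) b h1 h2 m hm
  refine ⟨?_, hrec⟩
  -- lower bounds
  have hlow : ∀ N i k, k ≤ N → i + k ≤ n → k ≤ w * (A.dist (x i) (x (i + k)) + 1) := by
    intro N
    induction N with
    | zero =>
      intro i k h1 _
      have : k = 0 := by omega
      rw [this]; exact Nat.zero_le _
    | succ N ih =>
      intro i k h1 h2
      rcases le_or_gt k w with h3 | h3
      · calc k ≤ w * 1 := by omega
          _ ≤ _ := by gcongr; omega
      · have hw0 : 1 ≤ w := by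
          rw [hw]; unfold wW
          exact Nat.mul_pos (by omega) (by omega)
        obtain ⟨k', rfl⟩ := Nat.exists_eq_add_of_le h3.le
        have h4 := ih (i + w) k' (by omega) (by omega)
        have h5 := hQ i w (by omega) (by omega)
        obtain ⟨p, p1, p2, p3⟩ := exists_geo A (x i) (x (i + (w + k')))
        obtain ⟨s, hs, h6⟩ := hrec 1 le_rfl i (i + w) (i + (w + k')) (by omega) (by omega) h2 _ p
          (p1.qg le_rfl) p2 p3
        have c2 := A.dist_triangle (x i) (p s) (x (i + w))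
        have c3 := A.dist_triangle (x (i + w)) (p s) (x (i + (w + k')))
        rw [A.dist_comm (x (i + w)) (p s)] at c3
        have c4 := p1 s (A.dist (x i) (x (i + (w + k'))) - s) (by omega)
        have e : s + (A.dist (x i) (x (i + (w + k'))) - s) = A.dist (x i) (x (i + (w + k'))) := by
          omega
        rw [e, p3] at c4
        have c5 := p1 0 s (by omega)
        rw [zero_add, p2] at c5
        have c6 : 20 * F' M F₀ 1 + 1 ≤ A.dist (x i) (x (i + w)) := by
          by_contra hcon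
          push Not at hcon
          have h7 : m₀ * A.dist (x i) (x (i + w)) ≤ m₀ * (20 * F' M F₀ 1) :=
            Nat.mul_le_mul_left m₀ (by omega)
          have h8 : m₀ * (20 * F' M F₀ 1) ≤ m₀ * Xb m₀ M F₀ K₀ := by
            gcongr
            unfold Xb dt
            omega
          have h9 : w = m₀ * Xb m₀ M F₀ K₀ + 2 * m₀ := by rw [hw]; unfold wW; ring
          omega
        rw [add_assoc] at h4
        calc w + k' ≤ w + w * (A.dist (x (i + w)) (x (i + (w + k'))) + 1) := by omega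
          _ = w * (A.dist (x (i + w)) (x (i + (w + k'))) + 1 + 1) := by ring
          _ ≤ _ := by gcongr; omega
  have hup : ∀ i k, i + k ≤ n → A.dist (x i) (x (i + k)) ≤ 2 * m₀ * k := by
    intro i k
    induction k with
    | zero => intro _; simp
    | succ k ih =>
      intro h
      have h1 := ih (by omega)
      have h2 := (hQ (i + k) 1 (by omega) (by omega)).1
      have h3 := A.dist_triangle (x i) (x (i + k)) (x (i + k + 1))
      have h4 : 2 * m₀ * (k + 1) = 2 * m₀ * k + 2 * m₀ := by ring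
      rw [← add_assoc]
      omega
  intro a k hk
  constructor
  · have := hup a k hk
    have h1 : 2 * m₀ * k ≤ (w + 2 * m₀) * k := by gcongr; omega
    omega
  · have := hlow k a k le_rfl hk
    have h1 : w * A.dist (x a) (x (a + k)) ≤ (w + 2 * m₀) * A.dist (x a) (x (a + k)) := by
      gcongr; omega
    have h2 : w * (A.dist (x a) (x (a + k)) + 1) = w * A.dist (x a) (x (a + k)) + w := by ring
    omega

end Pool.Agent.Y33.LG
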