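import Pool.Agent.Y33.LG.QI
import Pool.Agent.Y33.LG.Disc

/-! # Translation between discrete and real quasi-geodesics -/

set_option autoImplicit false

namespace Pool.Agent.Y33.LG

open Pool.Agent.H659R3.MorseLim Pool.Agent.Y33.Free Pool.Agent.Y33.GP

variable {G : Type} [Group G] {A : FinGen G}

/-- The discrete constant of a real quasi-geodesic. -/
noncomputable def mOf (lam eps : ℝ) : ℕ := ⌈lam⌉₊ + ⌈eps⌉₊ + ⌈lam * eps⌉₊ + 1

theorem mOf_pos (lam eps : ℝ) : 1 ≤ mOf lam eps := by unfold mOf; omega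

theorem mOf_cast (lam eps : ℝ) :
    (mOf lam eps : ℝ) = ⌈lam⌉₊ + ⌈eps⌉₊ + ⌈lam * eps⌉₊ + 1 := by
  unfold mOf; push_cast; ring

theorem real_of_disc {m L : ℕ} (hm : 1 ≤ m) {q : ℕ → G} (hq : QG A m L q) :
    IsQuasiGeod (X := Cay A) m (2 * m) (Set.Icc 0 L) (fun s => q ⌊s⌋₊) := by
  intro s hs t ht
  obtain ⟨h1, h2⟩ := hq.toReal hm s hs t ht
  rw [div_eq_inv_mul] at h1
  exact ⟨h1, h2⟩

theorem disc_times {lam eps : ℝ} (hlam : 1 ≤ lam) (heps : 0 ≤ eps) {x k d : ℝ} (hk : 0 ≤ k)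
    (hx0 : 0 ≤ x) (h1 : x ≤ k) (h2 : k - 1 ≤ x) (hd : 0 ≤ d) (h3 : x ≤ lam * (d + eps))
    (h4 : d ≤ lam * x + eps) : d ≤ mOf lam eps * k + mOf lam eps ∧
      k ≤ mOf lam eps * d + mOf lam eps := by
  have m1 : lam ≤ ⌈lam⌉₊ := Nat.le_ceil _
  have m2 : eps ≤ ⌈eps⌉₊ := Nat.le_ceil _
  have m3 : lam * eps ≤ ⌈lam * eps⌉₊ := Nat.le_ceil _
  rw [mOf_cast]
  have n3 : (0 : ℝ) ≤ ⌈lam * eps⌉₊ := Nat.cast_nonneg _
  have n2 : (0 : ℝ) ≤ ⌈eps⌉₊ := Nat.cast_nonneg _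
  generalize (⌈lam⌉₊ : ℝ) = c1 at *
  generalize (⌈eps⌉₊ : ℝ) = c2 at *
  generalize (⌈lam * eps⌉₊ : ℝ) = c3 at *
  constructor
  · have e1 : lam * x ≤ c1 * k := by
      apply mul_le_mul m1 h1 hx0; linarith
    have e2 : 0 ≤ (c2 + c3 + 1) * k := by positivity
    nlinarith
  · have e1 : lam * d ≤ c1 * d := by gcongr
    have e2 : 0 ≤ (c2 + c3 + 1) * d := by positivity
    nlinarith

theorem min_times {c d : ℝ} {i k : ℕ} (hik : i + k ≤ ⌈d - c⌉₊) :
    min (c + i) d ≤ min (c + (i + k : ℕ)) d ∧ min (c + (i + k : ℕ)) d - min (c + i) d ≤ k ∧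
      (k : ℝ) - 1 ≤ min (c + (i + k : ℕ)) d - min (c + i) d := by
  have k0 : (0 : ℝ) ≤ k := Nat.cast_nonneg k
  push_cast
  rcases Nat.eq_zero_or_pos k with h0 | h0
  · subst h0
    simp
  · have h1 : ((i + (k - 1) : ℕ) : ℝ) < d - c := by
      apply Nat.lt_ceil.1
      omega
    have h2 : ((i + (k - 1) : ℕ) : ℝ) = i + k - 1 := by
      have : i + (k - 1) + 1 = i + k := by omega
      have h3 : ((i + (k - 1) + 1 : ℕ) : ℝ) = ((i + k : ℕ) : ℝ) := by rw [this]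
      push_cast at h3 ⊢
      linarith
    rw [h2] at h1
    have k1 : (1 : ℝ) ≤ k := by exact_mod_cast h0
    have e1 : min (c + i) d = c + i := min_eq_left (by linarith)
    rw [e1]
    rcases le_total (c + (i + k)) d with h | h
    · rw [min_eq_left h]
      refine ⟨by linarith, by linarith, by linarith⟩
    · rw [min_eq_right h]
      refine ⟨by linarith, by linarith, by linarith⟩

theorem disc_of_real {lam eps c d : ℝ} (hlam : 1 ≤ lam) (heps : 0 ≤ eps) (hcd : c ≤ d)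
    {q : ℝ → G} (hq : IsQuasiGeod (X := Cay A) lam eps (Set.Icc c d) q) :
    QG A (mOf lam eps) ⌈d - c⌉₊ (fun i => q (min (c + i) d)) := by
  intro i k hik
  obtain ⟨a1, a2, a3⟩ := min_times hik
  have hi : min (c + i) d ∈ Set.Icc c d := ⟨le_min (by
    have : (0 : ℝ) ≤ i := Nat.cast_nonneg i
    linarith) hcd, min_le_right _ _⟩
  have hk : min (c + (i + k : ℕ)) d ∈ Set.Icc c d := ⟨hi.1.trans a1, min_le_right _ _⟩
  obtain ⟨q1, q2⟩ := hq _ hi _ hk
  rw [abs_sub_comm, abs_of_nonneg (by linarith)] at q1 q2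
  rw [inv_iff (by linarith)] at q1
  have := disc_times hlam heps (Nat.cast_nonneg k) (by linarith) a2 a3 dist_nonneg q1 q2
  rw [cay_dist] at this
  obtain ⟨b1, b2⟩ := this
  constructor
  · exact_mod_cast b1
  · exact_mod_cast b2

theorem exists_step_real (R : ℕ) (τ : ℕ → ℝ) (t : ℝ) (h0 : τ 0 ≤ t) (hR : t ≤ τ R) (hR0 : 0 < R) :
    ∃ s < R, τ s ≤ t ∧ t ≤ τ (s + 1) := by
  classical
  have hex : ∃ n, t ≤ τ (n + 1) := ⟨R - 1, by rwa [Nat.sub_add_cancel hR0]⟩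
  have h1 := Nat.find_spec hex
  have h2 : Nat.find hex ≤ R - 1 := Nat.find_min' hex (by rwa [Nat.sub_add_cancel hR0])
  refine ⟨Nat.find hex, by omega, ?_, h1⟩
  rcases Nat.eq_zero_or_pos (Nat.find hex) with h | h
  · rw [h]; exact h0
  · have := Nat.find_min hex (m := Nat.find hex - 1) (by omega)
    rw [Nat.sub_add_cancel h] at this
    linarith

/-- Quasi-geodesics close to a geodesic with the same endpoints pass near its points. -/
theorem seg_rec {l : ℕ} {γ : ℕ → G} (hg : Geo A l γ) {m f L : ℕ} {q : ℕ → G} (hq : QG A m L q)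
    {a b c : ℕ} (hab : a ≤ b) (hbc : b ≤ c) (hc : c ≤ l) (h0 : q 0 = γ a) (hL : q L = γ c)
    (hd : ∀ s ≤ L, ∃ n ≤ l, A.dist (q s) (γ n) ≤ f) :
    ∃ t ≤ L, A.dist (q t) (γ b) ≤ 3 * f + 2 * m := by
  have b1 : ∀ s, ∃ n ≤ l, (s ≤ L → A.dist (q s) (γ n) ≤ f) ∧ (s = 0 → n = a) ∧
      (s = L → s ≠ 0 → n = c) := by
    intro s
    by_cases hs0 : s = 0
    · refine ⟨a, by omega, fun _ => ?_, fun _ => rfl, fun _ h' => absurd hs0 h'⟩
      rw [hs0, h0]; simp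
    · by_cases hsL : s = L
      · refine ⟨c, hc, fun _ => ?_, fun h' => absurd h' hs0, fun _ _ => rfl⟩
        rw [hsL, hL]; simp
      · by_cases hs : s ≤ L
        · obtain ⟨n, hn, hn'⟩ := hd s hs
          exact ⟨n, hn, fun _ => hn', fun h' => absurd h' hs0, fun h' => absurd h' hsL⟩
        · exact ⟨0, Nat.zero_le _, fun h' => absurd h' hs, fun h' => absurd h' hs0,
            fun h' => absurd h' hsL⟩
  choose n n0 n1 n2 n3 using b1
  rcases Nat.eq_zero_or_pos L with hL0 | hL0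
  · subst hL0
    have e : γ a = γ c := by rw [← h0, ← hL]
    have := hg.dist_eq (a := a) (b := c) (by omega) hc
    rw [e, A.dist_self] at this
    have hb : b = a := by omega
    refine ⟨0, le_rfl, ?_⟩
    rw [h0, hb]; simp
  · obtain ⟨s, hs, c1, c2⟩ := exists_step L n b (by rw [n2 0 rfl]; exact hab)
      (by rw [n3 L rfl (by omega)]; exact hbc) hL0
    refine ⟨s, hs.le, ?_⟩
    have d1 := n1 s hs.le
    have d2 := n1 (s + 1) hs
    have d3 := (hq s 1 hs).1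
    have t1 := A.dist_triangle (γ (n s)) (q s) (γ (n (s + 1)))
    have t2 := A.dist_triangle (q s) (q (s + 1)) (γ (n (s + 1)))
    have t3 := A.dist_triangle (q s) (γ (n s)) (γ b)
    rw [A.dist_comm (γ (n s)) (q s)] at t1
    rw [hg.dist_eq (n0 _) (n0 _)] at t1
    rw [hg.dist_eq (n0 _) (by omega)] at t3
    omega

theorem close2 {F : ℕ → ℕ} {l : ℕ} {γ : ℕ → G} (h : RecOn A F l γ) (hg : Geo A l γ)
    {a c : ℕ} (ha : a ≤ l) (hc : c ≤ l) {m L : ℕ} (hm : 1 ≤ m) {q : ℕ → G} (hq : QG A m L q)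
    (h0 : q 0 = γ a) (hL : q L = γ c) {t : ℕ} (ht : t ≤ L) :
    ∃ b, min a c ≤ b ∧ b ≤ max a c ∧ A.dist (q t) (γ b) ≤ gU F m := by
  rcases le_total a c with hac | hac
  · obtain ⟨b, b1, b2, b3⟩ := h.close hg hac hc hm hq h0 hL ht
    exact ⟨b, by omega, by omega, b3⟩
  · obtain ⟨b, b1, b2, b3⟩ := h.close hg hac ha hm hq.rev (by simpa using hL) (by simpa using h0)
      (t := L - t) (by omega)
    have e : L - (L - t) = t := by omega
    rw [e] at b3
    exact ⟨b, by omega, by omega, b3⟩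

/-- The Morse local-to-global property implies that locally recurrent geodesics are recurrent. -/
theorem locRec_of_mltg (h : MorseLocalToGlobal (Cay A)) : LocRec A := by
  intro M
  set MM : Gauge := fun lam eps => ((gU M (mOf lam eps) : ℕ) : NNReal) + Real.toNNReal (lam + eps)
    with hMM
  obtain ⟨L, M', lam', eps', hL, -, -, key⟩ := h MM 1 1 le_rfl zero_le_one
  refine ⟨⌈L⌉₊ + 1, fun m => 3 * (⌈(M' m (2 * m) : ℝ)⌉₊ + 1) + 2 * m, ?_⟩
  intro l g hg hM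
  set γ : ℝ → Cay A := fun s => g ⌊s⌋₊ with hγ
  have hloc : IsLocalMorse L MM 1 1 0 l γ := by
    intro s t hs hst ht hL'
    have ft : ⌊t⌋₊ ≤ l := Nat.floor_le_of_le ht
    have fst : ⌊s⌋₊ ≤ ⌊t⌋₊ := Nat.floor_mono hst
    have s1 := Nat.floor_le hs
    have s2 := Nat.lt_floor_add_one s
    have t1 := Nat.floor_le (hs.trans hst)
    have t2 := Nat.lt_floor_add_one t
    constructor
    · intro lam eps hlam heps c d hcd q hq hqc hqd u hu
      obtain ⟨s1', hs1, hs1'⟩ := hqc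
      obtain ⟨t1', ht1, ht1'⟩ := hqd
      have hqd := disc_of_real (G := G) (A := A) (q := q) hlam heps hcd hq
      set N := ⌈d - c⌉₊ with hN
      have hdN : d ≤ c + N := by
        have := Nat.le_ceil (d - c)
        linarith
      have e0 : q (min (c + (0 : ℕ)) d) = g ⌊s1'⌋₊ := by
        rw [Nat.cast_zero, add_zero, min_eq_left hcd, ← hs1']
      have eN : q (min (c + (N : ℕ)) d) = g ⌊t1'⌋₊ := by
        rw [min_eq_right hdN, ← ht1']
      have fs1 : ⌊s⌋₊ ≤ ⌊s1'⌋₊ := Nat.floor_mono hs1.1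
      have fs2 : ⌊s1'⌋₊ ≤ ⌊t⌋₊ := Nat.floor_mono hs1.2
      have ft1 : ⌊s⌋₊ ≤ ⌊t1'⌋₊ := Nat.floor_mono ht1.1
      have ft2 : ⌊t1'⌋₊ ≤ ⌊t⌋₊ := Nat.floor_mono ht1.2
      have hwin : ⌊t⌋₊ - ⌊s⌋₊ ≤ ⌈L⌉₊ + 1 := by
        have h1 : ((⌊t⌋₊ - ⌊s⌋₊ : ℕ) : ℝ) < ⌈L⌉₊ + 1 := by
          rw [Nat.cast_sub fst]
          have := Nat.le_ceil L
          linarith
        have h2 : ⌊t⌋₊ - ⌊s⌋₊ < ⌈L⌉₊ + 1 := by exact_mod_cast h1
        omega
      have hrec := hM ⌊s⌋₊ (⌊t⌋₊ - ⌊s⌋₊) (by omega) hwin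
      have hgeo : Geo A (⌊t⌋₊ - ⌊s⌋₊) (fun i => g (⌊s⌋₊ + i)) := hg.sub (by omega)
      have hur : ⌊u - c⌋₊ ≤ N := by
        have h1 : (⌊u - c⌋₊ : ℝ) ≤ u - c := Nat.floor_le (by linarith [hu.1])
        have h2 : (⌊u - c⌋₊ : ℝ) ≤ N := by linarith [hu.2]
        exact_mod_cast h2
      obtain ⟨j, j1, j2, j3⟩ := close2 hrec hgeo (a := ⌊s1'⌋₊ - ⌊s⌋₊) (c := ⌊t1'⌋₊ - ⌊s⌋₊)
        (by omega) (by omega) (mOf_pos lam eps) hqd (by
          have e : ⌊s⌋₊ + (⌊s1'⌋₊ - ⌊s⌋₊) = ⌊s1'⌋₊ := by omega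
          simp only [e]
          exact e0) (by
          have e : ⌊s⌋₊ + (⌊t1'⌋₊ - ⌊s⌋₊) = ⌊t1'⌋₊ := by omega
          simp only [e]
          exact eN) (t := ⌊u - c⌋₊) hur
      -- the point is on `γ`
      obtain ⟨p, hp, P, hP, hpP, fp, fP⟩ : ∃ p ∈ Set.Icc s t, ∃ P ∈ Set.Icc s t, p ≤ P ∧
          ⌊p⌋₊ ≤ ⌊s⌋₊ + j ∧ ⌊s⌋₊ + j ≤ ⌊P⌋₊ := by
        rcases le_total s1' t1' with h3 | h3
        · have := Nat.floor_mono h3
          exact ⟨s1', hs1, t1', ht1, h3, by omega, by omega⟩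
        · have := Nat.floor_mono h3
          exact ⟨t1', ht1, s1', hs1, h3, by omega, by omega⟩
      obtain ⟨x, hx, hx'⟩ : ∃ x ∈ Set.Icc s t, g (⌊s⌋₊ + j) = g ⌊x⌋₊ := by
        rcases Nat.eq_or_lt_of_le fp with h3 | h3
        · exact ⟨p, hp, by rw [← h3]⟩
        · refine ⟨((⌊s⌋₊ + j : ℕ) : ℝ), ⟨?_, ?_⟩, by rw [Nat.floor_natCast]⟩
          · have h4 : ((⌊p⌋₊ + 1 : ℕ) : ℝ) ≤ ((⌊s⌋₊ + j : ℕ) : ℝ) := by exact_mod_cast h3
            have h5 := Nat.lt_floor_add_one p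
            push_cast at h4 ⊢
            linarith [hp.1]
          · have h4 : ((⌊s⌋₊ + j : ℕ) : ℝ) ≤ (⌊P⌋₊ : ℝ) := by exact_mod_cast fP
            have h5 := Nat.floor_le (hs.trans hP.1)
            linarith [hP.2]
      refine (Metric.infDist_le_dist_of_mem (s := γ '' Set.Icc s t) (y := γ x)
        ⟨x, hx, rfl⟩).trans ?_
      have hr1 : (⌊u - c⌋₊ : ℝ) ≤ u - c := Nat.floor_le (by linarith [hu.1])
      have hr2 := Nat.lt_floor_add_one (u - c)
      have emin : min (c + (⌊u - c⌋₊ : ℝ)) d = c + ⌊u - c⌋₊ :=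
        min_eq_left (by linarith [hu.2])
      rw [emin] at j3
      have h6 := (hq u hu (c + ⌊u - c⌋₊) ⟨by
        have : (0 : ℝ) ≤ ⌊u - c⌋₊ := Nat.cast_nonneg _
        linarith, by linarith [hu.2]⟩).2
      have h7 : dist (q u) (γ x) ≤ dist (q u) (q (c + ⌊u - c⌋₊)) +
        dist (q (c + ⌊u - c⌋₊)) (γ x) := dist_triangle _ _ _
      have h8 : dist (q (c + ⌊u - c⌋₊)) (γ x) ≤ (gU M (mOf lam eps) : ℕ) := by
        rw [cay_dist]
        have : γ x = g (⌊s⌋₊ + j) := hx'.symm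
        rw [this]
        exact_mod_cast j3
      have h9 : |u - (c + ⌊u - c⌋₊)| ≤ 1 := by
        rw [abs_le]; constructor <;> linarith
      have h10 : lam * |u - (c + ⌊u - c⌋₊)| ≤ lam * 1 := by gcongr
      have h11 : ((MM lam eps : NNReal) : ℝ) = (gU M (mOf lam eps) : ℕ) + (lam + eps) := by
        simp only [hMM]
        push_cast
        rw [Real.coe_toNNReal _ (by linarith)]
      rw [h11]
      linarith
    · have hk : ∀ s' ∈ Set.Icc s t, ∀ t' ∈ Set.Icc s t, s' ≤ t' →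
          (1 : ℝ)⁻¹ * |s' - t'| - 1 ≤ dist (γ s') (γ t') ∧
            dist (γ s') (γ t') ≤ 1 * |s' - t'| + 1 := by
        intro s' hs' t' ht' hst'
        have f1 : ⌊s'⌋₊ ≤ ⌊t'⌋₊ := Nat.floor_mono hst'
        have f2 : ⌊t'⌋₊ ≤ l := (Nat.floor_mono ht'.2).trans ft
        obtain ⟨k, hk⟩ := Nat.exists_eq_add_of_le f1
        have h1 := hg ⌊s'⌋₊ k (by omega)
        rw [← hk] at h1
        have h2 : dist (γ s') (γ t') = (k : ℝ) := by
          rw [cay_dist]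
          exact_mod_cast h1
        rw [h2]
        have k1 : (k : ℝ) = ⌊t'⌋₊ - ⌊s'⌋₊ := by rw [hk]; push_cast; ring
        have a1 := Nat.floor_le (hs.trans hs'.1)
        have a2 := Nat.lt_floor_add_one s'
        have a3 := Nat.floor_le (hs.trans ht'.1)
        have a4 := Nat.lt_floor_add_one t'
        rw [abs_sub_comm, abs_of_nonneg (by linarith), k1]
        constructor <;> linarith
      intro s' hs' t' ht'
      rcases le_total s' t' with h1 | h1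
      · exact hk s' hs' t' ht' h1
      · rw [abs_sub_comm, dist_comm]
        exact hk t' ht' s' hs' h1
  obtain ⟨k1, -⟩ := key 0 l γ (Nat.cast_nonneg l) hloc
  intro m hm a b c hab hbc hc Lq q hq h0 hLq
  have hm' : (1 : ℝ) ≤ m := by exact_mod_cast hm
  have ha' : (a : ℝ) ∈ Set.Icc (0 : ℝ) l :=
    ⟨Nat.cast_nonneg _, by exact_mod_cast (show a ≤ l by omega)⟩
  have hc' : (c : ℝ) ∈ Set.Icc (0 : ℝ) l := ⟨Nat.cast_nonneg _, by exact_mod_cast hc⟩
  refine seg_rec hg hq hab hbc hc h0 hLq ?_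
  intro s hs
  have h1 := k1 m (2 * m) hm' (by linarith) 0 Lq (Nat.cast_nonneg _) _
    (real_of_disc (G := G) (A := A) hm hq) ⟨a, ha', by simp [hγ, h0]⟩ ⟨c, hc', by simp [hγ, hLq]⟩ s
    ⟨Nat.cast_nonneg _, by exact_mod_cast hs⟩
  obtain ⟨x, hx, hx'⟩ := exists_near ⟨_, (a : ℝ), ha', rfl⟩ h1
  refine ⟨⌊x⌋₊, Nat.floor_le_of_le hx.2, ?_⟩
  rw [Nat.floor_natCast, cay_dist] at hx'
  have h2 := Nat.le_ceil ((M' m (2 * m) : NNReal) : ℝ)
  have h3 : (A.dist (q s) (g ⌊x⌋₊) : ℝ) ≤ ((⌈(M' m (2 * m) : ℝ)⌉₊ + 1 : ℕ) : ℝ) := by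
    push_cast
    have : (A.dist (q s) (g ⌊x⌋₊) : ℝ) < (M' m (2 * m) : ℝ) + 1 := hx'
    linarith
  exact_mod_cast h3

/-- The window gauge. -/
noncomputable def nu (M : Gauge) (m : ℕ) : ℝ := M m (2 * m) + 1

noncomputable def M1g (M : Gauge) (lam eps : ℝ) (m : ℕ) : ℕ :=
  ⌈nu M m + lam * (lam * (2 * nu M m + 2 * m + eps)) + eps⌉₊

theorem nu_pos (M : Gauge) (m : ℕ) : 0 < nu M m := by
  unfold nu
  have : (0 : ℝ) ≤ M m (2 * m) := NNReal.coe_nonneg _
  linarith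

/-- Windows of real Morse quasi-geodesics are recurrent. -/
theorem window_rec {M : Gauge} {lam eps : ℝ} (hlam : 1 ≤ lam) {s t : ℝ}
    {γ : ℝ → G} (hM : IsMorse (X := Cay A) M (Set.Icc s t) γ)
    (hQ : IsQuasiGeod (X := Cay A) lam eps (Set.Icc s t) γ) {r : ℝ} (hr : r ∈ Set.Icc s t)
    {m : ℕ} (hm : 1 ≤ m) : R A m (M1g M lam eps m) (γ s) (γ r) (γ t) := by
  intro L q hq h0 hL
  have hst : s ≤ t := hr.1.trans hr.2
  have hm' : (1 : ℝ) ≤ m := by exact_mod_cast hm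
  have hν := nu_pos M m
  have hb : nu M m + lam * (lam * (2 * nu M m + 2 * m + eps)) + eps ≤ (M1g M lam eps m : ℝ) :=
    Nat.le_ceil _
  have hsm : s ∈ Set.Icc s t := ⟨le_rfl, hst⟩
  have htm : t ∈ Set.Icc s t := ⟨hst, le_rfl⟩
  rcases Nat.eq_zero_or_pos L with hL0 | hL0
  · subst hL0
    refine ⟨0, le_rfl, ?_⟩
    obtain ⟨a1, -⟩ := hQ s hsm t htm
    rw [inv_iff (by linarith)] at a1
    have e : dist (α := Cay A) (γ s) (γ t) = 0 := by
      rw [← h0, ← hL]; exact dist_self _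
    rw [e, zero_add, abs_sub_comm, abs_of_nonneg (by linarith)] at a1
    obtain ⟨-, a2⟩ := hQ s hsm r hr
    rw [abs_sub_comm, abs_of_nonneg (by linarith [hr.1])] at a2
    have a3 : lam * (r - s) ≤ lam * (lam * (2 * nu M m + 2 * m + eps)) := by
      have h1 : r - s ≤ lam * eps := by linarith [hr.2]
      have h2 : lam * eps ≤ lam * (2 * nu M m + 2 * m + eps) := by
        gcongr; linarith
      gcongr
      linarith
    rw [cay_dist] at a2
    rw [h0]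
    have : (A.dist (γ s) (γ r) : ℝ) ≤ (M1g M lam eps m : ℝ) := by linarith
    exact_mod_cast this
  · have hd : ∀ i, ∃ τ ∈ Set.Icc s t, (i ≤ L → (A.dist (q i) (γ τ) : ℝ) ≤ nu M m) ∧
        (i = 0 → τ = s) ∧ (i = L → τ = t) := by
      intro i
      by_cases hi0 : i = 0
      · refine ⟨s, hsm, fun _ => ?_, fun _ => rfl, fun h => by omega⟩
        rw [hi0, h0, A.dist_self]
        simpa using hν.le
      · by_cases hiL : i = L
        · refine ⟨t, htm, fun _ => ?_, fun h => absurd h hi0, fun _ => rfl⟩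
          rw [hiL, hL, A.dist_self]
          simpa using hν.le
        · by_cases hi : i ≤ L
          · have h1 := hM m (2 * m) hm' (by linarith) 0 L (Nat.cast_nonneg _) _
              (real_of_disc (G := G) (A := A) hm hq) ⟨s, hsm, by simp [h0]⟩
              ⟨t, htm, by simp [hL]⟩ i ⟨Nat.cast_nonneg _, by exact_mod_cast hi⟩
            obtain ⟨x, hx, hx'⟩ := exists_near ⟨_, s, hsm, rfl⟩ h1
            rw [Nat.floor_natCast, cay_dist] at hx'
            exact ⟨x, hx, fun _ => hx'.le, fun h => absurd h hi0, fun h => absurd h hiL⟩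
          · exact ⟨s, hsm, fun h => absurd h hi, fun h => absurd h hi0, fun h => absurd h hiL⟩
    choose τ hτ d1 d2 d3 using hd
    obtain ⟨i, hi, c1, c2⟩ := exists_step_real L τ r (by rw [d2 0 rfl]; exact hr.1)
      (by rw [d3 L rfl]; exact hr.2) hL0
    refine ⟨i, hi.le, ?_⟩
    have e1 := d1 i hi.le
    have e2 := d1 (i + 1) hi
    have e3 := (hq i 1 hi).1
    have e3' : (A.dist (q i) (q (i + 1)) : ℝ) ≤ 2 * m := by
      have : A.dist (q i) (q (i + 1)) ≤ 2 * m := by omega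
      exact_mod_cast this
    obtain ⟨a1, -⟩ := hQ (τ i) (hτ i) (τ (i + 1)) (hτ (i + 1))
    rw [inv_iff (by linarith), abs_sub_comm, abs_of_nonneg (by linarith), cay_dist] at a1
    obtain ⟨-, a2⟩ := hQ (τ i) (hτ i) r hr
    rw [abs_sub_comm, abs_of_nonneg (by linarith), cay_dist] at a2
    have t1 : (A.dist (γ (τ i)) (γ (τ (i + 1))) : ℝ) ≤ A.dist (q i) (γ (τ i)) +
        A.dist (q i) (q (i + 1)) + A.dist (q (i + 1)) (γ (τ (i + 1))) := by
      have h1 := A.dist_triangle (γ (τ i)) (q i) (γ (τ (i + 1)))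
      have h2 := A.dist_triangle (q i) (q (i + 1)) (γ (τ (i + 1)))
      rw [A.dist_comm (γ (τ i)) (q i)] at h1
      have h3 : A.dist (γ (τ i)) (γ (τ (i + 1))) ≤ A.dist (q i) (γ (τ i)) +
        A.dist (q i) (q (i + 1)) + A.dist (q (i + 1)) (γ (τ (i + 1))) := by omega
      exact_mod_cast h3
    have t2 : (A.dist (q i) (γ r) : ℝ) ≤ A.dist (q i) (γ (τ i)) + A.dist (γ (τ i)) (γ r) := by
      exact_mod_cast A.dist_triangle (q i) (γ (τ i)) (γ r)
    have a3 : lam * (r - τ i) ≤ lam * (lam * (2 * nu M m + 2 * m + eps)) := by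
      have h1 : r - τ i ≤ lam * ((A.dist (γ (τ i)) (γ (τ (i + 1))) : ℝ) + eps) := by linarith
      have h2 : lam * ((A.dist (γ (τ i)) (γ (τ (i + 1))) : ℝ) + eps) ≤
          lam * (2 * nu M m + 2 * m + eps) := by
        gcongr; linarith
      gcongr
      linarith
    have : (A.dist (q i) (γ r) : ℝ) ≤ (M1g M lam eps m : ℝ) := by linarith
    exact_mod_cast this

/-- Locally recurrent geodesics are recurrent implies the Morse local-to-global property. -/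
theorem mltg_of_locRec (hP : LocRec A) : MorseLocalToGlobal (Cay A) := by
  intro M lam eps hlam heps
  obtain ⟨W, C, F, hW, hC, key⟩ := local_global hP (mOf_pos lam eps) (M1g M lam eps)
  have hC' : (1 : ℝ) ≤ C := by exact_mod_cast hC
  have hW' : (1 : ℝ) ≤ W := by exact_mod_cast hW
  set E : ℕ := ⌈lam + eps⌉₊ with hE
  have hE' : lam + eps ≤ E := Nat.le_ceil _
  set M' : Gauge := fun l e => ((gV C F (cc (mOf l e + C) E) + E : ℕ) : NNReal) +
    Real.toNNReal (l + e) with hM'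
  refine ⟨W, M', C, 2 * (lam + eps) + 2 * C + 1, by linarith, hC', by linarith, ?_⟩
  intro a b γ hab hloc
  set n := ⌈b - a⌉₊ with hn
  set x : ℕ → G := fun i => γ (min (a + i) b) with hx
  have hT : ∀ i : ℕ, min (a + i) b ∈ Set.Icc a b := fun i =>
    ⟨le_min (by have : (0 : ℝ) ≤ i := Nat.cast_nonneg i
                linarith) hab, min_le_right _ _⟩
  have hQ : LocQ A (mOf lam eps) W n x := by
    intro i k hik hk
    obtain ⟨a1, a2, a3⟩ := min_times hik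
    have hk' : (k : ℝ) ≤ W := by exact_mod_cast hk
    have hl := (hloc (min (a + i) b) (min (a + (i + k : ℕ)) b) (hT i).1 a1 (hT _).2
      (by linarith)).2
    obtain ⟨q1, q2⟩ := hl _ ⟨le_rfl, a1⟩ _ ⟨a1, le_rfl⟩
    rw [abs_sub_comm, abs_of_nonneg (by linarith)] at q1 q2
    rw [inv_iff (by linarith)] at q1
    have := disc_times hlam heps (Nat.cast_nonneg k) (by linarith) a2 a3 dist_nonneg q1 q2
    rw [cay_dist] at this
    obtain ⟨b1, b2⟩ := this
    constructor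
    · exact_mod_cast b1
    · exact_mod_cast b2
  have hR : LocR A (M1g M lam eps) W n x := by
    intro i k hik hk m hm a1 a2 a3 h12 h23 h3
    obtain ⟨k2, hk2⟩ := Nat.exists_eq_add_of_le h12
    obtain ⟨k3, hk3⟩ := Nat.exists_eq_add_of_le (h12.trans h23)
    obtain ⟨k4, hk4⟩ := Nat.exists_eq_add_of_le h23
    obtain ⟨c1, c2, -⟩ := min_times (c := a) (d := b) (i := i + a1) (k := k3) (by omega)
    obtain ⟨c3, -, -⟩ := min_times (c := a) (d := b) (i := i + a1) (k := k2) (by omega)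
    obtain ⟨c4, -, -⟩ := min_times (c := a) (d := b) (i := i + a2) (k := k4) (by omega)
    have e3 : i + a1 + k3 = i + a3 := by omega
    have e2 : i + a1 + k2 = i + a2 := by omega
    have e4 : i + a2 + k4 = i + a3 := by omega
    rw [e3] at c1 c2
    rw [e2] at c3
    rw [e4] at c4
    have hk' : (k3 : ℝ) ≤ W := by
      have : k3 ≤ W := by omega
      exact_mod_cast this
    obtain ⟨l1, l2⟩ := hloc (min (a + (i + a1 : ℕ)) b) (min (a + (i + a3 : ℕ)) b) (hT _).1 c1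
      (hT _).2 (by linarith)
    exact window_rec (G := G) (A := A) hlam l1 l2 ⟨c3, c4⟩ hm
  obtain ⟨q1, q2⟩ := key n x hQ hR
  -- the real path and the discrete one
  have hflo : ∀ s ∈ Set.Icc a b, ⌊s - a⌋₊ ≤ n ∧ min (a + (⌊s - a⌋₊ : ℝ)) b = a + ⌊s - a⌋₊ ∧
      a + (⌊s - a⌋₊ : ℝ) ≤ s ∧ s < a + ⌊s - a⌋₊ + 1 ∧
      (A.dist (γ s) (x ⌊s - a⌋₊) : ℝ) ≤ lam + eps := by
    intro s hs
    have h1 : (⌊s - a⌋₊ : ℝ) ≤ s - a := Nat.floor_le (by linarith [hs.1])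
    have h2 := Nat.lt_floor_add_one (s - a)
    have h3 : min (a + (⌊s - a⌋₊ : ℝ)) b = a + ⌊s - a⌋₊ := min_eq_left (by linarith [hs.2])
    have h4 := Nat.le_ceil (b - a)
    have h5 : (⌊s - a⌋₊ : ℝ) ≤ n := by linarith [hs.2]
    refine ⟨by exact_mod_cast h5, h3, by linarith, by linarith, ?_⟩
    have h6 : (0 : ℝ) ≤ ⌊s - a⌋₊ := Nat.cast_nonneg _
    have h7 := (hloc (a + ⌊s - a⌋₊) s (by linarith) (by linarith) hs.2 (by linarith)).2
    have h8 := (h7 s ⟨by linarith, le_rfl⟩ (a + ⌊s - a⌋₊) ⟨le_rfl, by linarith⟩).2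
    rw [abs_of_nonneg (by linarith), cay_dist] at h8
    have h9 : lam * (s - (a + ⌊s - a⌋₊)) ≤ lam * 1 := by
      gcongr; linarith
    simp only [hx, h3]
    linarith
  constructor
  · intro l e hl he c d hcd q hq hqc hqd u hu
    obtain ⟨s0, hs0, hs0'⟩ := hqc
    obtain ⟨s1, hs1, hs1'⟩ := hqd
    obtain ⟨f1, -, -, -, f5⟩ := hflo s0 hs0
    obtain ⟨g1, -, -, -, g5⟩ := hflo s1 hs1
    have hqd := disc_of_real (G := G) (A := A) (q := q) hl he hcd hq
    set N := ⌈d - c⌉₊ with hN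
    have hdN : d ≤ c + N := by
      have := Nat.le_ceil (d - c)
      linarith
    have e0 : q (min (c + (0 : ℕ)) d) = γ s0 := by
      rw [Nat.cast_zero, add_zero, min_eq_left hcd, ← hs0']
    have eN : q (min (c + (N : ℕ)) d) = γ s1 := by
      rw [min_eq_right hdN, ← hs1']
    have fE : A.dist (γ s0) (x ⌊s0 - a⌋₊) ≤ E := by
      have := f5.trans hE'
      exact_mod_cast this
    have gE : A.dist (γ s1) (x ⌊s1 - a⌋₊) ≤ E := by
      have := g5.trans hE'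
      exact_mod_cast this
    have hQ2 : LocQ A C (n + 1) n x := fun i k hik _ => q1 i k hik
    have hR2 : LocR A F (n + 1) n x := fun i k hik _ => q2.sub hik
    have hU : U A (gV C F) (x ⌊s0 - a⌋₊) (x ⌊s1 - a⌋₊) := by
      rcases le_total ⌊s0 - a⌋₊ ⌊s1 - a⌋₊ with h | h
      · exact window_U hQ2 (by omega) hR2 h g1 (by omega)
      · exact (window_U hQ2 (by omega) hR2 h f1 (by omega)).symm
    have hur : ⌊u - c⌋₊ ≤ N := by
      have h1 : (⌊u - c⌋₊ : ℝ) ≤ u - c := Nat.floor_le (by linarith [hu.1])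
      have h2 : (⌊u - c⌋₊ : ℝ) ≤ N := by linarith [hu.2]
      exact_mod_cast h2
    obtain ⟨j, j1, j2, j3⟩ := hU.change (m := mOf l e + C) (e := E) (by omega)
      (hqd.mono (by omega)) (q1.mono (by omega)) (Nat.zero_le _) (le_refl N) f1 g1
      (by rw [e0]; exact fE) (by rw [eN]; exact gE) (by simp) (by simp) (i := ⌊u - c⌋₊)
      (by omega) (by omega)
    refine (Metric.infDist_le_dist_of_mem (s := γ '' Set.Icc a b) (y := γ (min (a + j) b))
        ⟨_, hT j, rfl⟩).trans ?_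
    have hr1 : (⌊u - c⌋₊ : ℝ) ≤ u - c := Nat.floor_le (by linarith [hu.1])
    have hr2 := Nat.lt_floor_add_one (u - c)
    have emin : min (c + (⌊u - c⌋₊ : ℝ)) d = c + ⌊u - c⌋₊ :=
      min_eq_left (by linarith [hu.2])
    rw [emin] at j3
    have h6 := (hq u hu (c + ⌊u - c⌋₊) ⟨by
      have : (0 : ℝ) ≤ ⌊u - c⌋₊ := Nat.cast_nonneg _
      linarith, by linarith [hu.2]⟩).2
    have h7 : dist (q u) (γ (min (a + j) b)) ≤ dist (q u) (q (c + ⌊u - c⌋₊)) +
      dist (q (c + ⌊u - c⌋₊)) (γ (min (a + j) b)) := dist_triangle _ _ _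
    have h8 : dist (q (c + ⌊u - c⌋₊)) (γ (min (a + j) b)) ≤
        ((gV C F (cc (mOf l e + C) E) + E : ℕ) : ℝ) := by
      rw [cay_dist]
      exact_mod_cast j3
    have h9 : |u - (c + ⌊u - c⌋₊)| ≤ 1 := by
      rw [abs_le]; constructor <;> linarith
    have h10 : l * |u - (c + ⌊u - c⌋₊)| ≤ l * 1 := by gcongr
    have h11 : ((M' l e : NNReal) : ℝ) =
        ((gV C F (cc (mOf l e + C) E) + E : ℕ) : ℝ) + (l + e) := by
      simp only [hM']
      push_cast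
      rw [Real.coe_toNNReal _ (by linarith)]
    rw [h11]
    linarith
  · have hk : ∀ s ∈ Set.Icc a b, ∀ t ∈ Set.Icc a b, s ≤ t →
        (C : ℝ)⁻¹ * |s - t| - (2 * (lam + eps) + 2 * C + 1) ≤ dist (γ s) (γ t) ∧
          dist (γ s) (γ t) ≤ C * |s - t| + (2 * (lam + eps) + 2 * C + 1) := by
      intro s hs t ht hst
      obtain ⟨f1, f2, f3, f4, f5⟩ := hflo s hs
      obtain ⟨g1, g2, g3, g4, g5⟩ := hflo t ht
      have fst : ⌊s - a⌋₊ ≤ ⌊t - a⌋₊ := Nat.floor_mono (by linarith)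
      obtain ⟨k, hk⟩ := Nat.exists_eq_add_of_le fst
      obtain ⟨u1, u2⟩ := q1 ⌊s - a⌋₊ k (by omega)
      rw [← hk] at u1 u2
      have k1 : (k : ℝ) = ⌊t - a⌋₊ - ⌊s - a⌋₊ := by rw [hk]; push_cast; ring
      have u1' : (A.dist (x ⌊s - a⌋₊) (x ⌊t - a⌋₊) : ℝ) ≤ C * k + C := by exact_mod_cast u1
      have u2' : (k : ℝ) ≤ C * (A.dist (x ⌊s - a⌋₊) (x ⌊t - a⌋₊) : ℝ) + C := by
        exact_mod_cast u2
      have t1 : (A.dist (γ s) (γ t) : ℝ) ≤ A.dist (γ s) (x ⌊s - a⌋₊) +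
          A.dist (x ⌊s - a⌋₊) (x ⌊t - a⌋₊) + A.dist (γ t) (x ⌊t - a⌋₊) := by
        have h1 := A.dist_triangle (γ s) (x ⌊s - a⌋₊) (γ t)
        have h2 := A.dist_triangle (x ⌊s - a⌋₊) (x ⌊t - a⌋₊) (γ t)
        rw [A.dist_comm (x ⌊t - a⌋₊) (γ t)] at h2
        have h3 : A.dist (γ s) (γ t) ≤ A.dist (γ s) (x ⌊s - a⌋₊) +
          A.dist (x ⌊s - a⌋₊) (x ⌊t - a⌋₊) + A.dist (γ t) (x ⌊t - a⌋₊) := by omega
        exact_mod_cast h3
      have t2 : (A.dist (x ⌊s - a⌋₊) (x ⌊t - a⌋₊) : ℝ) ≤ A.dist (γ s) (x ⌊s - a⌋₊) +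
          A.dist (γ s) (γ t) + A.dist (γ t) (x ⌊t - a⌋₊) := by
        have h1 := A.dist_triangle (x ⌊s - a⌋₊) (γ s) (x ⌊t - a⌋₊)
        have h2 := A.dist_triangle (γ s) (γ t) (x ⌊t - a⌋₊)
        rw [A.dist_comm (x ⌊s - a⌋₊) (γ s)] at h1
        have h3 : A.dist (x ⌊s - a⌋₊) (x ⌊t - a⌋₊) ≤ A.dist (γ s) (x ⌊s - a⌋₊) +
          A.dist (γ s) (γ t) + A.dist (γ t) (x ⌊t - a⌋₊) := by omega
        exact_mod_cast h3
      rw [abs_sub_comm, abs_of_nonneg (by linarith), cay_dist, inv_iff (by linarith)]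
      have d0 : (0 : ℝ) ≤ A.dist (γ s) (γ t) := Nat.cast_nonneg _
      constructor
      · have h1 : (C : ℝ) * (A.dist (x ⌊s - a⌋₊) (x ⌊t - a⌋₊) : ℝ) ≤
            C * (A.dist (γ s) (γ t) + 2 * (lam + eps)) := by
          gcongr; linarith
        nlinarith
      · have h1 : (C : ℝ) * k ≤ C * (t - s + 1) := by
          gcongr; linarith
        nlinarith
    intro s hs t ht
    rcases le_total s t with h1 | h1
    · exact hk s hs t ht h1
    · rw [abs_sub_comm, dist_comm]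
      exact hk t ht s hs h1

end Pool.Agent.Y33.LG
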