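import Pool.Agent.Y33.LG.Defs

/-! # Quasi-isometry invariance of the Morse local-to-global property -/

set_option autoImplicit false

namespace Pool.Agent.Y33.LG

open Pool.Agent.H659R3.MorseLim

theorem inv_iff {lam x eps d : ℝ} (h : 0 < lam) :
    lam⁻¹ * x - eps ≤ d ↔ x ≤ lam * (d + eps) := by
  rw [sub_le_iff_le_add, inv_mul_le_iff₀ h]

/-- Two maps inverse to each other up to bounded distance. -/
structure QInv {X Y : Type} [MetricSpace X] [MetricSpace Y] (f : X → Y) (h : Y → X) (c : ℝ) :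
    Prop where
  one_le : 1 ≤ c
  f_up : ∀ x x', dist (f x) (f x') ≤ c * dist x x' + c
  f_lo : ∀ x x', dist x x' ≤ c * dist (f x) (f x') + c
  h_up : ∀ y y', dist (h y) (h y') ≤ c * dist y y' + c
  h_lo : ∀ y y', dist y y' ≤ c * dist (h y) (h y') + c
  fh : ∀ y, dist (f (h y)) y ≤ c
  hf : ∀ x, dist (h (f x)) x ≤ c

theorem QuasiIsometric.qinv {X Y : Type} [MetricSpace X] [MetricSpace Y]
    (h : QuasiIsometric X Y) : ∃ (f : X → Y) (h : Y → X) (c : ℝ), QInv f h c := by
  obtain ⟨f, c, hc, h1, h2⟩ := h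
  choose g hg using h2
  have h3 : ∀ x x', dist x x' ≤ c * (dist (f x) (f x') + c) := fun x x' =>
    (inv_iff (by linarith)).1 (h1 x x').1
  refine ⟨f, g, 3 * c * c + c, by nlinarith, ?_, ?_, ?_, ?_, ?_, ?_⟩
  · intro x x'
    have := (h1 x x').2
    have h4 : 0 ≤ dist x x' := dist_nonneg
    nlinarith [mul_nonneg (mul_nonneg (by linarith : (0 : ℝ) ≤ c) (by linarith : (0 : ℝ) ≤ c)) h4]
  · intro x x'
    have := h3 x x'
    have h4 : 0 ≤ dist (f x) (f x') := dist_nonneg
    nlinarith [mul_nonneg (mul_nonneg (by linarith : (0 : ℝ) ≤ c) (by linarith : (0 : ℝ) ≤ c)) h4]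
  · intro y y'
    have h5 := h3 (g y) (g y')
    have h6 : dist (f (g y)) (f (g y')) ≤ dist y y' + 2 * c := by
      have t1 := dist_triangle (f (g y)) y (f (g y'))
      have t2 := dist_triangle y y' (f (g y'))
      have := hg y
      have := hg y'
      rw [dist_comm y' (f (g y'))] at t2
      linarith
    have h4 : 0 ≤ dist y y' := dist_nonneg
    have h7 : c * (dist (f (g y)) (f (g y')) + c) ≤ c * (dist y y' + 2 * c + c) := by gcongr
    nlinarith [mul_nonneg (mul_nonneg (by linarith : (0 : ℝ) ≤ c) (by linarith : (0 : ℝ) ≤ c)) h4]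
  · intro y y'
    have h5 := (h1 (g y) (g y')).2
    have t1 := dist_triangle y (f (g y)) y'
    have t2 := dist_triangle (f (g y)) (f (g y')) y'
    have := hg y
    have := hg y'
    rw [dist_comm y (f (g y))] at t1
    have h4 : 0 ≤ dist (g y) (g y') := dist_nonneg
    nlinarith [mul_nonneg (mul_nonneg (by linarith : (0 : ℝ) ≤ c) (by linarith : (0 : ℝ) ≤ c)) h4]
  · intro y
    have := hg y
    nlinarith
  · intro x
    have h5 := h3 (g (f x)) x
    have := hg (f x)
    nlinarith

theorem QInv.symm {X Y : Type} [MetricSpace X] [MetricSpace Y] {f : X → Y} {h : Y → X} {c : ℝ}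
    (H : QInv f h c) : QInv h f c :=
  ⟨H.one_le, H.h_up, H.h_lo, H.f_up, H.f_lo, H.hf, H.fh⟩

/-- The image of a quasi-geodesic under a quasi-isometry. -/
theorem IsQuasiGeod.comp {X Y : Type} [MetricSpace X] [MetricSpace Y] {f : X → Y} {h : Y → X}
    {c : ℝ} (H : QInv f h c) {lam eps : ℝ} (hlam : 1 ≤ lam) (heps : 0 ≤ eps) {I : Set ℝ}
    {q : ℝ → X} (hq : IsQuasiGeod lam eps I q) :
    IsQuasiGeod (c * lam) (c * eps + c) I (fun t => f (q t)) := by
  have hc := H.one_le
  intro s hs t ht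
  obtain ⟨h1, h2⟩ := hq s hs t ht
  rw [inv_iff (by positivity)] at h1 ⊢
  have h3 := H.f_up (q s) (q t)
  have h4 := H.f_lo (q s) (q t)
  have h0 : 0 ≤ dist (f (q s)) (f (q t)) := dist_nonneg
  constructor
  · calc |s - t| ≤ lam * (dist (q s) (q t) + eps) := h1
      _ ≤ lam * (c * dist (f (q s)) (f (q t)) + c + c * eps) := by
          gcongr
          nlinarith
      _ ≤ c * lam * (dist (f (q s)) (f (q t)) + (c * eps + c)) := by
          have e1 : 0 ≤ (c - 1) * (lam * (c * eps + c)) := by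
            apply mul_nonneg (by linarith)
            positivity
          nlinarith
  · calc dist (f (q s)) (f (q t)) ≤ c * dist (q s) (q t) + c := h3
      _ ≤ c * (lam * |s - t| + eps) + c := by gcongr
      _ = _ := by ring

/-- Changing a quasi-geodesic by a bounded amount. -/
theorem IsQuasiGeod.near {X : Type} [MetricSpace X] {lam eps e : ℝ} {I : Set ℝ} {q q' : ℝ → X}
    (hq : IsQuasiGeod lam eps I q) (he : ∀ t ∈ I, dist (q t) (q' t) ≤ e) :
    IsQuasiGeod lam (eps + 2 * e) I q' := by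
  intro s hs t ht
  obtain ⟨h1, h2⟩ := hq s hs t ht
  have a1 := he s hs
  have a2 := he t ht
  have t1 := dist_triangle (q s) (q' s) (q t)
  have t2 := dist_triangle (q' s) (q' t) (q t)
  have t3 := dist_triangle (q' s) (q s) (q' t)
  have t4 := dist_triangle (q s) (q t) (q' t)
  rw [dist_comm (q' t) (q t)] at t2
  rw [dist_comm (q' s) (q s)] at t3
  constructor <;> linarith

theorem exists_near {X : Type} [MetricSpace X] {γ : ℝ → X} {I : Set ℝ} {p : X} {r : ℝ}
    (hI : (γ '' I).Nonempty) (h : Metric.infDist p (γ '' I) ≤ r) :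
    ∃ s ∈ I, dist p (γ s) < r + 1 := by
  obtain ⟨y, ⟨s, hs, rfl⟩, h1⟩ := (Metric.infDist_lt_iff hI).1 (lt_of_le_of_lt h (by linarith :
    r < r + 1))
  exact ⟨s, hs, h1⟩

theorem MorseLocalToGlobal.of_qinv {X Y : Type} [MetricSpace X] [MetricSpace Y] {f : X → Y}
    {h : Y → X} {c : ℝ} (H : QInv f h c) (hX : MorseLocalToGlobal X) : MorseLocalToGlobal Y := by
  have hc := H.one_le
  intro M lam eps hlam heps
  set M₁ : Gauge := fun l e => Real.toNNReal (c * (M (c * l) (c * e + c + 2 * c) + 1 + 2 * c) + c)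
    with hM₁
  obtain ⟨L, M', lam', eps', hL, hlam', heps', key⟩ := hX M₁ (c * lam) (c * eps + c)
    (by nlinarith) (by positivity)
  refine ⟨L, fun l e => Real.toNNReal (c * (M' (c * l) (c * e + c) + 1) + c), c * lam',
    c * eps' + c, hL, by nlinarith, by positivity, ?_⟩
  intro a b γ hab hγ
  obtain ⟨k1, k2⟩ := key a b (fun t => h (γ t)) hab (by
    intro s t hs hst ht hL'
    obtain ⟨g1, g2⟩ := hγ s t hs hst ht hL'
    refine ⟨?_, g2.comp H.symm hlam heps⟩
    intro l e hl he c' d' hcd q hq hqc hqd u hu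
    obtain ⟨s0, hs0, hs0'⟩ := hqc
    obtain ⟨s1, hs1, hs1'⟩ := hqd
    classical
    set q' : ℝ → Y := fun t => if t = c' then γ s0 else if t = d' then γ s1 else f (q t) with hq'
    have hne : (γ '' Set.Icc s t).Nonempty := ⟨_, s0, hs0, rfl⟩
    have hclose : ∀ t ∈ Set.Icc c' d', dist (f (q t)) (q' t) ≤ c := by
      intro t _
      simp only [hq']
      split_ifs with h1 h2
      · rw [h1, ← hs0']; exact H.fh _
      · rw [h2, ← hs1']; exact H.fh _
      · simp; linarith
    have hqg := (hq.comp H hl he).near hclose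
    have h1 := g1 (c * l) (c * e + c + 2 * c) (by nlinarith) (by positivity) c' d' hcd q' hqg
      ⟨s0, hs0, by simp [hq']⟩ (by
        by_cases h1 : d' = c'
        · exact ⟨s0, hs0, by simp [hq', h1]⟩
        · exact ⟨s1, hs1, by simp [hq', h1]⟩) u hu
    obtain ⟨x, hx, hx'⟩ := exists_near hne h1
    refine (Metric.infDist_le_dist_of_mem (s := (fun t => h (γ t)) '' Set.Icc s t)
      (y := h (γ x)) ⟨x, hx, rfl⟩).trans ?_
    have a1 := hclose u hu
    have a2 := H.fh (γ x)
    have a3 := H.f_lo (q u) (h (γ x))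
    have t1 := dist_triangle (f (q u)) (q' u) (f (h (γ x)))
    have t2 := dist_triangle (q' u) (γ x) (f (h (γ x)))
    rw [dist_comm (γ x)] at t2
    refine le_trans ?_ (Real.le_coe_toNNReal _)
    calc dist (q u) (h (γ x)) ≤ c * dist (f (q u)) (f (h (γ x))) + c := a3
      _ ≤ _ := by
        gcongr
        linarith)
  refine ⟨?_, ?_⟩
  · intro l e hl he c' d' hcd q hq hqc hqd u hu
    obtain ⟨s0, hs0, hs0'⟩ := hqc
    obtain ⟨s1, hs1, hs1'⟩ := hqd
    have h1 := k1 (c * l) (c * e + c) (by nlinarith) (by positivity) c' d' hcd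
      (fun t => h (q t)) (hq.comp H.symm hl he) ⟨s0, hs0, by simp only [hs0']⟩
      ⟨s1, hs1, by simp only [hs1']⟩ u hu
    obtain ⟨x, hx, hx'⟩ := exists_near ⟨_, s0, hs0, rfl⟩ h1
    refine (Metric.infDist_le_dist_of_mem (s := γ '' Set.Icc a b) (y := γ x)
      ⟨x, hx, rfl⟩).trans ?_
    refine le_trans ?_ (Real.le_coe_toNNReal _)
    calc dist (q u) (γ x) ≤ c * dist (h (q u)) (h (γ x)) + c := H.h_lo _ _
      _ ≤ _ := by gcongr
  · intro s hs t ht
    obtain ⟨h1, h2⟩ := k2 s hs t ht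
    rw [inv_iff (by positivity)] at h1 ⊢
    have h3 := H.h_up (γ s) (γ t)
    have h4 := H.h_lo (γ s) (γ t)
    have h0 : 0 ≤ dist (γ s) (γ t) := dist_nonneg
    constructor
    · calc |s - t| ≤ lam' * (dist (h (γ s)) (h (γ t)) + eps') := h1
        _ ≤ lam' * (c * dist (γ s) (γ t) + c + c * eps') := by
            gcongr
            nlinarith
        _ ≤ c * lam' * (dist (γ s) (γ t) + (c * eps' + c)) := by
            have e1 : 0 ≤ (c - 1) * (lam' * (c * eps' + c)) := by
              apply mul_nonneg (by linarith)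
              positivity
            nlinarith
    · calc dist (γ s) (γ t) ≤ c * dist (h (γ s)) (h (γ t)) + c := h4
        _ ≤ c * (lam' * |s - t| + eps') + c := by gcongr
        _ = _ := by ring

/-- The Morse local-to-global property is invariant under quasi-isometries. -/
theorem MorseLocalToGlobal.of_qi {X Y : Type} [MetricSpace X] [MetricSpace Y]
    (h : QuasiIsometric X Y) (hX : MorseLocalToGlobal X) : MorseLocalToGlobal Y := by
  obtain ⟨f, g, c, H⟩ := h.qinv
  exact hX.of_qinv H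

theorem MorseLocalToGlobal.of_qi' {X Y : Type} [MetricSpace X] [MetricSpace Y]
    (h : QuasiIsometric X Y) (hY : MorseLocalToGlobal Y) : MorseLocalToGlobal X := by
  obtain ⟨f, g, c, H⟩ := h.qinv
  exact hY.of_qinv H.symm

/-- Word metrics for different finite generating sets are quasi-isometric. -/
theorem cay_qi {G : Type} [Group G] (A A' : FinGen G) : QuasiIsometric (Cay A) (Cay A') := by
  have key : ∀ A A' : FinGen G, ∃ c : ℕ, ∀ x y : G, A'.dist x y ≤ c * A.dist x y := by
    intro A A'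
    obtain ⟨c, hc⟩ : ∃ c : ℕ, ∀ s ∈ A.S, A'.len s ≤ c := by
      obtain ⟨c, hc⟩ := (A.finite.image A'.len).bddAbove
      exact ⟨c, fun s hs => hc ⟨s, hs, rfl⟩⟩
    refine ⟨c, fun x y => ?_⟩
    unfold FinGen.dist
    obtain ⟨l, h1, h2, h3⟩ := A.len_spec (x⁻¹ * y)
    rw [← h1, ← h3]
    clear h1 h3
    induction l with
    | nil => simp
    | cons s l ih =>
      rw [List.prod_cons, List.length_cons]
      have ih' := ih fun x hx => h2 x (List.mem_cons_of_mem _ hx)
      have hs : A'.len s ≤ c := by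
        rcases h2 s (by simp) with h | h
        · exact hc s h
        · rw [← A'.len_inv]; exact hc _ h
      have := A'.len_mul_le s l.prod
      have : c * (l.length + 1) = c * l.length + c := by ring
      omega
  obtain ⟨c, hc⟩ := key A A'
  obtain ⟨c', hc'⟩ := key A' A
  refine ⟨fun x => x, c + c' + 1, by
    have : (0 : ℝ) ≤ c := Nat.cast_nonneg c
    have : (0 : ℝ) ≤ c' := Nat.cast_nonneg c'
    linarith, ?_, fun y => ⟨y, by
      have : (0 : ℝ) ≤ c := Nat.cast_nonneg c
      have : (0 : ℝ) ≤ c' := Nat.cast_nonneg c'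
      simp
      linarith⟩⟩
  intro x x'
  have h0 : (0 : ℝ) ≤ c := Nat.cast_nonneg c
  have h0' : (0 : ℝ) ≤ c' := Nat.cast_nonneg c'
  change (_ : ℝ)⁻¹ * (A.dist (G := G) x x' : ℝ) - _ ≤ (A'.dist (G := G) x x' : ℝ) ∧
    (A'.dist (G := G) x x' : ℝ) ≤ _ * (A.dist (G := G) x x' : ℝ) + _
  have h1 : (A'.dist (G := G) x x' : ℝ) ≤ c * (A.dist (G := G) x x' : ℝ) := by
    exact_mod_cast hc x x'
  have h2 : (A.dist (G := G) x x' : ℝ) ≤ c' * (A'.dist (G := G) x x' : ℝ) := by
    exact_mod_cast hc' x x'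
  have h3 : (0 : ℝ) ≤ A.dist (G := G) x x' := Nat.cast_nonneg _
  have h4 : (0 : ℝ) ≤ A'.dist (G := G) x x' := Nat.cast_nonneg _
  constructor
  · rw [inv_iff (by linarith)]
    nlinarith [mul_nonneg h0 h4, mul_nonneg h0' h4]
  · nlinarith [mul_nonneg h0 h3, mul_nonneg h0' h3]

end Pool.Agent.Y33.LG
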