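import Pool.Agent.H659R3.MorseLim.Word
import Pool.Agent.Y33.GP.Basic

/-! # The Morse local-to-global property: definitions -/

set_option autoImplicit false

namespace Pool.Agent.Y33.LG

open Pool.Agent.H659R3.MorseLim

/-- A Morse gauge; only its values on `[1, ∞) × [0, ∞)` matter. -/
abbrev Gauge := ℝ → ℝ → NNReal

section Space

variable {X : Type} [MetricSpace X]

/-- `γ`, restricted to the interval `I`, is a `(lam, eps)`-quasi-geodesic. -/
def IsQuasiGeod (lam eps : ℝ) (I : Set ℝ) (γ : ℝ → X) : Prop :=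
  ∀ s ∈ I, ∀ t ∈ I, lam⁻¹ * |s - t| - eps ≤ dist (γ s) (γ t) ∧
    dist (γ s) (γ t) ≤ lam * |s - t| + eps

/-- `γ`, restricted to the interval `I`, is `M`-Morse: all quasi-geodesics `q : [c, d] → X` whose
endpoints lie on `γ` stay within distance `M lam eps` of the image of `γ`. -/
def IsMorse (M : Gauge) (I : Set ℝ) (γ : ℝ → X) : Prop :=
  ∀ lam eps : ℝ, 1 ≤ lam → 0 ≤ eps → ∀ c d : ℝ, c ≤ d → ∀ q : ℝ → X,
    IsQuasiGeod lam eps (Set.Icc c d) q → q c ∈ γ '' I → q d ∈ γ '' I →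
      ∀ t ∈ Set.Icc c d, Metric.infDist (q t) (γ '' I) ≤ M lam eps

/-- `γ : [a, b] → X` is an `(L; M; lam, eps)`-local Morse quasi-geodesic. -/
def IsLocalMorse (L : ℝ) (M : Gauge) (lam eps a b : ℝ) (γ : ℝ → X) : Prop :=
  ∀ s t : ℝ, a ≤ s → s ≤ t → t ≤ b → t - s ≤ L →
    IsMorse M (Set.Icc s t) γ ∧ IsQuasiGeod lam eps (Set.Icc s t) γ

end Space

/-- The Morse local-to-global property. -/
def MorseLocalToGlobal (X : Type) [MetricSpace X] : Prop :=
  ∀ (M : Gauge) (lam eps : ℝ), 1 ≤ lam → 0 ≤ eps →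
    ∃ (L : ℝ) (M' : Gauge) (lam' eps' : ℝ), 0 ≤ L ∧ 1 ≤ lam' ∧ 0 ≤ eps' ∧
      ∀ (a b : ℝ) (γ : ℝ → X), a ≤ b → IsLocalMorse L M lam eps a b γ →
        IsMorse M' (Set.Icc a b) γ ∧ IsQuasiGeod lam' eps' (Set.Icc a b) γ

/-- `X` and `Y` are quasi-isometric. -/
def QuasiIsometric (X Y : Type) [MetricSpace X] [MetricSpace Y] : Prop :=
  ∃ (f : X → Y) (c : ℝ), 1 ≤ c ∧
    (∀ x x', c⁻¹ * dist x x' - c ≤ dist (f x) (f x') ∧ dist (f x) (f x') ≤ c * dist x x' + c) ∧
    ∀ y, ∃ x, dist (f x) y ≤ c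

/-- The vertex set `G` of the Cayley graph of `G` with respect to the finite generating set `A`. -/
def Cay {G : Type} [Group G] (_ : FinGen G) : Type := G

/-- The metric of the Cayley graph on its vertices: the word metric. -/
noncomputable instance {G : Type} [Group G] (A : FinGen G) : MetricSpace (Cay A) where
  dist x y := (A.dist (G := G) x y : ℝ)
  dist_self x := by
    change ((A.dist (G := G) x x : ℕ) : ℝ) = 0
    rw [A.dist_self]; simp
  dist_comm x y := by
    change ((A.dist (G := G) x y : ℕ) : ℝ) = (A.dist (G := G) y x : ℕ)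
    rw [A.dist_comm]
  dist_triangle x y z := by
    change ((A.dist (G := G) x z : ℕ) : ℝ) ≤ (A.dist (G := G) x y : ℕ) + (A.dist (G := G) y z : ℕ)
    exact_mod_cast A.dist_triangle (G := G) x y z
  eq_of_dist_eq_zero {x y} h := by
    refine A.eq_of_dist (G := G) ?_
    exact_mod_cast h

theorem cay_dist {G : Type} [Group G] (A : FinGen G) (x y : Cay A) :
    dist x y = (A.dist (G := G) x y : ℝ) := rfl

end Pool.Agent.Y33.LG
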